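import Mathlib
import Pool.Agent.Helper436.CurvatureDefs
import Pool.Agent.Helper436.PinchBridge

set_option autoImplicit false

namespace Pool.Agent.Results.MP_c9e91a_gt.OptimalPinching

open Pool.Agent.Helper436 Pool.Agent.Helper436.Curvature
open scoped Manifold ContDiff
open Bundle

/-- Sanity check (not used below): on a decomposable 2-vector `x ∧ y` the curvature operator of a
Riemannian manifold takes the value `⟨R(x, y) y, x⟩`, that is `K(x, y) |x ∧ y|^2`. -/
theorem curvOp_decomposable {d : ℕ} {M : Type} [TopologicalSpace M]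
    [ChartedSpace (EuclideanSpace ℝ (Fin d)) M]
    [IsManifold 𝓘(ℝ, EuclideanSpace ℝ (Fin d)) ∞ M]
    [RiemannianBundle (fun x : M => TangentSpace 𝓘(ℝ, EuclideanSpace ℝ (Fin d)) x)]
    [IsContMDiffRiemannianBundle 𝓘(ℝ, EuclideanSpace ℝ (Fin d)) ∞ (EuclideanSpace ℝ (Fin d))
      (fun x : M => TangentSpace 𝓘(ℝ, EuclideanSpace ℝ (Fin d)) x)]
    (p : M) (x y : Fin d → ℝ) :
    curvOp (Pinch.sb d) (chartMetric (Pinch.sb d) p) (chartAt (EuclideanSpace ℝ (Fin d)) p p)
        (Matrix.vecMulVec x y - Matrix.vecMulVec y x) =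
      curv (Pinch.sb d) (chartMetric (Pinch.sb d) p) (chartAt (EuclideanSpace ℝ (Fin d)) p p)
        x y y x := by
  rw [Bridge.chartMetric_eq', Bridge.curvOp_eq, Bridge.curv_eq]
  exact Pinch.curvOp_decomposable p x y

/-- For every `d ≥ 2` (in particular for every `d ≥ 4`, the range asked for) the optimal pointwise
pinching constant of sectional curvature that forces a positive curvature operator in dimension `d`
is `(2 k - 2) / (2 k + 1)`, where `k` is the integer part of `d / 2`. -/
theorem result (d : ℕ) (hd : 2 ≤ d) :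
    sInf (pinchingSet d) = (2 * ((d / 2 : ℕ) : ℝ) - 2) / (2 * ((d / 2 : ℕ) : ℝ) + 1) := by
  rw [Bridge.pinchingSet_eq]
  exact Pinch.main hd

end Pool.Agent.Results.MP_c9e91a_gt.OptimalPinching
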